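import Pool.Agent.H26.TR.Pair
import Pool.Agent.H45.TR.Minor
import Pool.Agent.H74.CT.Count
import Pool.Agent.H19.G5.Fin
import Pool.Agent.H80.TB.Leaf

set_option autoImplicit false

/-!
Adapter (MP_a46c6f_co, target (C), note 6830): the data of the counting step from leaves of the pair code of
the largest part and of the minors at the root.
-/

namespace Pool.Agent.H16.CA

open Finset Pool.Agent.H98.Code Pool.Agent.H26.TR

variable {V : Type} [Fintype V] [DecidableEq V]
variable {L : Submodule (ZMod 2) (V → K)} {e : V} {D : V → K} {P : Finset (Finset V)}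

/-- the two structures of parts -/
theorem toParts (hP : IsParts L e D P) : Pool.Agent.H45.TR.Parts L e D P :=
  ⟨fun M hM => (hP.mem M hM).1, fun M hM => (hP.mem M hM).2.1, fun M hM => (hP.mem M hM).2.2,
    hP.disj, hP.cover, hP.union⟩

theorem noz_of_zon (hz : ∀ u ∈ L, ZOnly u → u = 0 ∨ u = fun _ => z) (hc : ∃ c : V, c ≠ e) :
    ∀ u ∈ L, (∀ v, v ≠ e → u v = 0) → u e ≠ z := by
  intro u hu h0 he
  obtain ⟨c, hc⟩ := hc
  rcases hz u hu (by
    intro v
    by_cases hv : v = e
    · rw [hv, he]; rfl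
    · rw [h0 v hv]; rfl) with h1 | h1
  · rw [h1] at he
    exact absurd (show (0 : K) = z from he) (by decide)
  · have h2 := h0 c hc
    rw [h1] at h2
    exact absurd (show z = (0 : K) from h2) (by decide)

/-- the full state at `e` whose total word is `0` at `e` -/
theorem start (hL : IsCode L) (hz1 : (fun _ => z) ∈ L)
    (hz : ∀ u ∈ L, ZOnly u → u = 0 ∨ u = fun _ => z) (hC : Critical L) (e : V)
    (hc : ∃ c : V, c ≠ e) : ∃ D, Hyp L e D ∧ D ∈ L ∧ D e = 0 := by
  obtain ⟨w, hwL, hwe, hw1⟩ := Pool.Agent.H19.G5.exists_off hL hz1 hz hC e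
  have hw0 : w ≠ 0 := by
    intro h0
    obtain ⟨c, hc⟩ := hc
    have := hw1 c hc
    rw [h0] at this
    exact absurd (show (0 : ZMod 2) = 1 from this) (by decide)
  have hwz : ZFree w := by
    intro v hv
    by_cases hve : v = e
    · rw [hve, hwe] at hv
      exact absurd hv (by decide)
    · have := hw1 v hve
      rw [hv] at this
      exact absurd this (by decide)
  obtain ⟨g, c₁, hc₁, c₂, hc₂, hsum, hg1, hg2, hd⟩ := hC w hwL hw0 hwz
  have hge : g = e := by
    by_contra hne
    have h1 := hw1 g hne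
    rw [← hsum, Pi.add_apply, hg1, hg2] at h1
    exact absurd h1 (by decide)
  subst hge
  have hval : ∀ v, v ≠ g → (c₁ v = 0 ∨ c₁ v = w v) ∧ (c₂ v = 0 ∨ c₂ v = w v) := by
    intro v hv
    have hs : w v = c₁ v + c₂ v := by rw [← hsum]; rfl
    rcases hd v hv with h1 | h1
    · rw [h1, zero_add] at hs
      exact ⟨Or.inl h1, Or.inr hs.symm⟩
    · rw [h1, add_zero] at hs
      exact ⟨Or.inr hs.symm, Or.inl h1⟩
  refine ⟨w, ⟨hL.iso, noz_of_zon hz hc, fun u hu h0 hz _ => hC u hu h0 hz, hw1, ?_⟩, hwL, hwe⟩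
  intro v hv
  by_cases h1 : c₁ v = 0
  · refine ⟨c₂, ⟨hc₂, fun v hv => (hval v hv).2, Or.inr hg2⟩, ?_⟩
    intro h2
    have h3 := hw1 v hv
    rw [← hsum, Pi.add_apply, h1, h2] at h3
    exact absurd h3 (by decide)
  · exact ⟨c₁, ⟨hc₁, fun v hv => (hval v hv).1, Or.inr hg1⟩, h1⟩

/-- another part -/
theorem exists_other (h : Hyp L e D) (hP : IsParts L e D P) (hD : D ∈ L) (hDe : D e = 0)
    {M : Finset V} (hM : M ∈ P) : ∃ M' ∈ P, M' ≠ M := by
  by_contra hc
  push Not at hc
  have h1 : pw D e M + D ∈ L := L.add_mem (hP.mem M hM).2.2 hD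
  refine h.noz _ h1 ?_ ?_
  · intro v hv
    obtain ⟨M', hM', hvM'⟩ := hP.cover v hv
    rw [hc M' hM'] at hvM'
    rw [Pi.add_apply]
    unfold pw
    rw [if_neg hv, if_pos hvM', K_add_self]
  · rw [Pi.add_apply, hDe, add_zero]
    simp [pw]

/-- a part has an even number of elements when the constant word `z` is in the code -/
theorem even_card (h : Hyp L e D) (hP : IsParts L e D P) (hz1 : (fun _ => z) ∈ L)
    {M : Finset V} (hM : M ∈ P) : ((M.card : ℕ) : ZMod 2) = 0 := by
  have h1 := h.iso _ (hP.mem M hM).2.2 _ hz1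
  have heM := (hP.mem M hM).2.1
  have h2 : form (pw D e M) (fun _ => z) = ∑ v, if v ∈ M then (1 : ZMod 2) else 0 := by
    unfold form
    refine Finset.sum_congr rfl fun v _ => ?_
    rw [kf_z_right]
    unfold pw
    by_cases hv : v = e
    · rw [if_pos hv, hv, if_neg heM]; rfl
    · rw [if_neg hv]
      by_cases hvM : v ∈ M
      · rw [if_pos hvM, if_pos hvM]; exact h.letter v hv
      · rw [if_neg hvM, if_neg hvM]; rfl
  rw [h2, Finset.sum_ite_mem, Finset.univ_inter, Finset.sum_const, nsmul_eq_mul, mul_one] at h1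
  exact h1

/-- **core of the adapter** -/
theorem card_five_core (hL : IsCode L) (hz1 : (fun _ => z) ∈ L)
    (hz : ∀ u ∈ L, ZOnly u → u = 0 ∨ u = fun _ => z) (hC : Critical L)
    (h : Hyp L e D) (hP : IsParts L e D P) {M0 : Finset V} (hM0 : M0 ∈ P)
    (hmax : ∀ M ∈ P, M.card ≤ M0.card) (hk : ∃ M ∈ P, M ≠ M0)
    (hcode : IsCode (pairCode L D e M0)) (hnoz : NoZ (pairCode L D e M0))
    (hleaf : ∃ l p, Pool.Agent.H80.TB.LeafAt (pairCode L D e M0) l p)
    (heW : ∀ M ∈ P.erase M0, e ∉ M)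
    (hroot : ∀ t : Finset V → V, (∀ M ∈ P.erase M0, t M ∈ M) →
      Pool.Agent.H80.TB.RootLeaf (Pool.Agent.H45.TR.N L D (P.erase M0) t) ⟨e, heW⟩) :
    Fintype.card V = 5 := by
  classical
  have heM0 : e ∉ M0 := (hP.mem M0 hM0).2.1
  -- rows
  have hrow : ∀ m : V, ∃ y : V → K, m ∈ M0 → (y ∈ L ∧ (y m).1 = 1 ∧ (∀ v ∈ M0, v ≠ m → (y v).1 = 0) ∧
      (∀ v, v ∉ M0 → v ≠ e → y v = 0 ∨ y v = D v) ∧ (y e).1 = 0) := by
    intro m
    by_cases hm : m ∈ M0
    · obtain ⟨r, hr, hr1, hr0⟩ := exists_row hcode hnoz ⟨m, hm⟩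
      rw [h.mem_pairCode heM0] at hr
      obtain ⟨u, hu, h1, h2, rfl⟩ := hr
      refine ⟨u, fun _ => ⟨hu, hr1, ?_, h1, ?_⟩⟩
      · intro v hv hvm
        exact hr0 ⟨v, hv⟩ (fun h0 => hvm (congrArg Subtype.val h0))
      · rcases h2 with h2 | h2
        · rw [h2]; rfl
        · rw [h2]; rfl
    · exact ⟨0, fun h0 => absurd h0 hm⟩
  choose y hy using hrow
  -- the row of the leaf
  obtain ⟨l, p, hlp, c, hc, hcl, hcp, hc0⟩ := hleaf
  have hyl := hy l.1 l.2
  have hylc : (fun x : {v // v ∈ M0} => y l.1 x.1) = c := by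
    apply eq_of_fst hnoz _ hc
    · intro x
      by_cases hx : x = l
      · rw [hx, hcl]; exact hyl.2.1
      · rw [hyl.2.2.1 x.1 x.2 (fun h0 => hx (Subtype.ext h0))]
        by_cases hxp : x = p
        · rw [hxp, hcp]; rfl
        · rw [hc0 x hx hxp]; rfl
    · rw [h.mem_pairCode heM0]
      refine ⟨y l.1, hyl.1, hyl.2.2.2.1, ?_, rfl⟩
      exact K_cases _ hyl.2.2.2.2
  have hT := toParts hP
  have hQ : P.erase M0 ⊆ P := Finset.erase_subset _ _
  obtain ⟨g, a, b, hab, hag, hbg, w, hw, hwg, hwa, hwb, hw0⟩ :=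
    Pool.Agent.H74.CT.two_letter_word L hL.iso hz1 e D h.letter P hP.mem hP.disj hP.cover M0 hM0 hmax hk
      y (fun m hm => hy m hm)
      ⟨l.1, l.2, p.1, p.2, fun h0 => hlp (Subtype.ext h0).symm, by
        intro v hv hvl
        have h1 := congrFun hylc ⟨v, hv⟩
        simp only at h1
        rw [h1]
        constructor
        · intro h2
          by_contra hvp
          rw [hc0 ⟨v, hv⟩ (fun h0 => hvl (congrArg Subtype.val h0))
            (fun h0 => hvp (congrArg Subtype.val h0))] at h2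
          exact absurd h2 (by decide)
        · intro h2
          have : (⟨v, hv⟩ : {v // v ∈ M0}) = p := Subtype.ext h2
          rw [this]; exact hcp⟩
      (by
        intro t ht
        have ht' : ∀ M ∈ P.erase M0, t M ∈ M := fun M hM =>
          ht M (Finset.mem_of_mem_erase hM) (Finset.ne_of_mem_erase hM)
        obtain ⟨a, hae, r, ⟨u, hu, hus, rfl⟩, hre, hra, hr0⟩ := hroot t ht'
        have inW : ∀ v, v ∈ M0 → ∀ M ∈ P.erase M0, v ∉ M := by
          intro v hv M hM hvM
          exact Finset.disjoint_left.1 (hP.disj M (hQ hM) M0 hM0 (Finset.ne_of_mem_erase hM)) hvM hv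
        refine ⟨u, hu, hre, ?_, ?_, ?_⟩
        · intro v hv
          have hve : (⟨v, inW v hv⟩ : Pool.Agent.H45.TR.W (P.erase M0)) ≠ ⟨e, heW⟩ := fun h0 =>
            heM0 ((show v = e from congrArg Subtype.val h0) ▸ hv)
          by_cases hva : (⟨v, inW v hv⟩ : Pool.Agent.H45.TR.W (P.erase M0)) = a
          · have h1 : u v = z := by rw [← hva] at hra; exact hra
            rw [h1]; rfl
          · have h1 : u v = 0 := hr0 _ hve hva
            rw [h1]; rfl
        · have hae' : a.1 ≠ e := fun h0 => hae (Subtype.ext h0)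
          obtain ⟨M, hM, haM⟩ := hP.cover a.1 hae'
          have hMM : M = M0 := by
            by_contra hne
            exact a.2 M (Finset.mem_erase.2 ⟨hne, hM⟩) haM
          refine ⟨a.1, hMM ▸ haM, ?_⟩
          intro v hv
          have hve : (⟨v, inW v hv⟩ : Pool.Agent.H45.TR.W (P.erase M0)) ≠ ⟨e, heW⟩ := fun h0 =>
            heM0 ((show v = e from congrArg Subtype.val h0) ▸ hv)
          constructor
          · intro h1
            by_contra hne
            have h2 : u v = 0 := hr0 ⟨v, inW v hv⟩ hve (fun h0 => hne (congrArg Subtype.val h0))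
            rw [h2] at h1
            exact absurd h1 (by decide)
          · intro h1
            rw [h1]; exact hra
        · intro M hM hne v hv
          have hMQ : M ∈ P.erase M0 := Finset.mem_erase.2 ⟨hne, hM⟩
          have h1 := hus v ((Pool.Agent.H45.TR.nmem_range_iff _ v).2 ⟨M, hMQ, hv⟩)
          by_cases hvt : v = t M
          · rw [if_pos hvt]
            rw [hvt, Pool.Agent.H45.TR.sg_h hMQ] at h1
            rw [hvt]
            exact h1
          · rw [if_neg hvt]
            rw [Pool.Agent.H45.TR.sg_ne hT hQ ht' hMQ hv hvt] at h1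
            exact h1)
  exact Pool.Agent.H19.G5.card_five hL hz1 hz hC (Ne.symm hag) (Ne.symm hbg) hab hw hwg hwa hwb hw0

end Pool.Agent.H16.CA
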